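import Pool.Agent.Q28.Ech2

/-!
The intersection of two echelon subgroups of the free group of rank two need not be echelon.
-/

namespace Pool.Agent.Results.MP_339e71_al.IntersectionNotEchelon

open Q28.Ech FreeGroup

/-- blocks of the first subgroup -/
def B1 (p : Fin 2 × Bool) : List (Fin 2 × Bool) :=
  match p with
  | (0, b) => [(0, b)]
  | (1, b) => [(1, b), (1, b), (0, b), (0, b), (1, b), (1, b)]

/-- blocks of the second subgroup -/
def B2 (p : Fin 2 × Bool) : List (Fin 2 × Bool) :=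
  match p with
  | (0, b) => [(1, b)]
  | (1, b) => [(0, b), (0, b), (1, b), (1, b), (0, b), (0, b)]

theorem inj1 : Function.Injective (FreeGroup.lift gen1) := by
  have h : gen1 = fun i => FreeGroup.mk (B1 (i, true)) := by
    funext i
    fin_cases i <;> rfl
  rw [h]
  refine blocks_injective B1 (by decide) ?_ (by decide) (by decide)
  intro p
  rw [isReduced_iff_reduce_eq]
  revert p
  decide

theorem inj2 : Function.Injective (FreeGroup.lift gen2) := by
  have h : gen2 = fun i => FreeGroup.mk (B2 (i, true)) := by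
    funext i
    fin_cases i <;> rfl
  rw [h]
  refine blocks_injective B2 (by decide) ?_ (by decide) (by decide)
  intro p
  rw [isReduced_iff_reduce_eq]
  revert p
  decide

theorem level_zero {n : ℕ} {F : Type} [Group F] (X : FreeGroupBasis (Fin n) F) :
    level X 0 = ⊥ := by
  unfold level
  rw [Subgroup.closure_eq_bot_iff]
  rintro g ⟨j, hj, _⟩
  omega

theorem level_one {n : ℕ} {F : Type} [Group F] (X : FreeGroupBasis (Fin n) F) (h : 0 < n) :
    level X 1 ≤ Subgroup.zpowers (X ⟨0, h⟩) := by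
  unfold level
  rw [Subgroup.closure_le]
  rintro g ⟨j, hj, rfl⟩
  have : j = ⟨0, h⟩ := by ext; simp only; omega
  rw [this]
  exact Subgroup.mem_zpowers _

theorem level_top {F : Type} [Group F] (X : FreeGroupBasis (Fin 2) F) :
    level X 2 = ⊤ := by
  rw [eq_top_iff, ← closure_range X, Subgroup.closure_le]
  rintro _ ⟨j, rfl⟩
  exact Subgroup.subset_closure ⟨j, j.2, rfl⟩

theorem echelon_of {X : FreeGroupBasis (Fin 2) F2} (f : Fin 2 → F2)
    (hf : Function.Injective (FreeGroup.lift f)) (h0 : f 0 = X 0)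
    (h1 : f 1 ∉ Subgroup.zpowers (X 0)) : IsEchelon (FreeGroup.lift f).range := by
  refine ⟨2, X, 2, basisRange f hf, id, strictMono_id, ?_⟩
  intro j
  rw [basisRange_apply]
  fin_cases j
  · refine ⟨?_, ?_⟩
    · exact Subgroup.subset_closure ⟨0, by decide, h0⟩
    · change f 0 ∉ level X 0
      rw [level_zero, Subgroup.mem_bot]
      intro h
      have h2 : FreeGroup.lift f (FreeGroup.of 0) = 1 := by rw [FreeGroup.lift_apply_of, h]
      have h3 := (injective_iff_map_eq_one _).1 hf _ h2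
      exact FreeGroup.of_ne_one 0 h3
  · refine ⟨?_, ?_⟩
    · change f 1 ∈ level X 2
      rw [level_top]
      trivial
    · intro h
      exact h1 (level_one X (by decide) h)

theorem echelon1 : IsEchelon H1 := by
  refine echelon_of (X := FreeGroupBasis.ofFreeGroup (Fin 2)) gen1 inj1 ?_ ?_
  · rw [FreeGroupBasis.ofFreeGroup_apply]; rfl
  · rw [FreeGroupBasis.ofFreeGroup_apply]
    rintro ⟨k, hk⟩
    have h1 : ex 1 (x ^ k) = ex 1 (gen1 1) := congrArg (ex 1) hk
    rw [MonoidHom.map_zpow] at h1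
    have h2 : ex 1 x = 1 := rfl
    have h3 : ex 1 (gen1 1) = Multiplicative.ofAdd 4 := rfl
    rw [h2, h3, one_zpow] at h1
    exact absurd h1 (by decide)

theorem echelon2 : IsEchelon H2 := by
  have e0 : ((FreeGroupBasis.ofFreeGroup (Fin 2)).reindex (Equiv.swap 0 1)) 0 = y := by
    rw [FreeGroupBasis.reindex_apply, FreeGroupBasis.ofFreeGroup_apply]
    rfl
  refine echelon_of (X := (FreeGroupBasis.ofFreeGroup (Fin 2)).reindex (Equiv.swap 0 1))
    gen2 inj2 ?_ ?_
  · rw [e0]; rfl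
  · rw [e0]
    rintro ⟨k, hk⟩
    have h1 : ex 0 (y ^ k) = ex 0 (gen2 1) := congrArg (ex 0) hk
    rw [MonoidHom.map_zpow] at h1
    have h2 : ex 0 y = 1 := rfl
    have h3 : ex 0 (gen2 1) = Multiplicative.ofAdd 4 := rfl
    rw [h2, h3, one_zpow] at h1
    exact absurd h1 (by decide)

theorem g1 (j : Fin 2) : gen1 j ∈ H1 := ⟨FreeGroup.of j, FreeGroup.lift_apply_of⟩

theorem g2 (j : Fin 2) : gen2 j ∈ H2 := ⟨FreeGroup.of j, FreeGroup.lift_apply_of⟩

theorem u_mem : y * y * x * x * y * y * x * x ∈ H1 ⊓ H2 := by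
  refine ⟨?_, ?_⟩
  · exact H1.mul_mem (H1.mul_mem (g1 1) (g1 0)) (g1 0)
  · have h : y * y * x * x * y * y * x * x = gen2 0 * gen2 0 * gen2 1 := by
      change y * y * x * x * y * y * x * x = y * y * (x * x * y * y * x * x)
      group
    rw [h]
    exact H2.mul_mem (H2.mul_mem (g2 0) (g2 0)) (g2 1)

theorem v_mem : x * x * y * y * x * x * y * y ∈ H1 ⊓ H2 := by
  refine ⟨?_, ?_⟩
  · have h : x * x * y * y * x * x * y * y = gen1 0 * gen1 0 * gen1 1 := by
      change x * x * y * y * x * x * y * y = x * x * (y * y * x * x * y * y)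
      group
    rw [h]
    exact H1.mul_mem (H1.mul_mem (g1 0) (g1 0)) (g1 1)
  · exact H2.mul_mem (H2.mul_mem (g2 1) (g2 0)) (g2 0)

theorem uv_ne : y * y * x * x * y * y * x * x * (x * x * y * y * x * x * y * y) ≠
    x * x * y * y * x * x * y * y * (y * y * x * x * y * y * x * x) := by decide

theorem not_echelon : ¬ IsEchelon (H1 ⊓ H2) := by
  rintro ⟨n, X, r, b, i, hi, hb⟩
  have hr : 2 ≤ r := by
    refine two_le_of_noncomm b ⟨_, u_mem⟩ ⟨_, v_mem⟩ ?_
    intro h
    exact uv_ne (congrArg Subtype.val h)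
  have hn : n ≤ 2 := card_le_of_gen X (FreeGroup.of : Fin 2 → F2) (FreeGroup.closure_range_of _)
  have h01 : i ⟨0, by omega⟩ < i ⟨1, by omega⟩ := hi (by simp [Fin.lt_def])
  have hi0 : (i ⟨0, by omega⟩ : ℕ) = 0 := by
    have := (i ⟨1, by omega⟩).2
    have h01' : (i ⟨0, by omega⟩ : ℕ) < i ⟨1, by omega⟩ := h01
    omega
  obtain ⟨hb1, hb2⟩ := hb ⟨0, by omega⟩
  rw [hi0] at hb1 hb2
  obtain ⟨m, hm⟩ := level_one X (by have := (i ⟨1, by omega⟩).2; omega) hb1
  have hm' : X ⟨0, _⟩ ^ m = ((b ⟨0, by omega⟩ : (H1 ⊓ H2 : Subgroup F2)) : F2) := hm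
  refine no_power X ⟨0, by have := (i ⟨1, by omega⟩).2; omega⟩ m ?_ ?_ ?_
  · rintro rfl
    apply hb2
    rw [← hm', zpow_zero]
    exact one_mem _
  · rw [hm']
    exact (b ⟨0, by omega⟩).2.1
  · rw [hm']
    exact (b ⟨0, by omega⟩).2.2

/-! ### the definition by ranks -/

/-- The free group `H` has rank `r`: it has a free basis of `r` elements. -/
def HasRank {F : Type} [Group F] (H : Subgroup F) (r : ℕ) : Prop :=
  Nonempty (FreeGroupBasis (Fin r) H)

/-- `H` is in echelon form with respect to the ordered free basis `X` of `F`, by ranks: the rank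
of `H ∩ F_i` exceeds the rank of `H ∩ F_(i-1)` by at most one. -/
def InEchelonFormRk {n : ℕ} {F : Type} [Group F] (X : FreeGroupBasis (Fin n) F)
    (H : Subgroup F) : Prop :=
  ∃ ρ : ℕ → ℕ, (∀ i, i ≤ n → HasRank (H ⊓ level X i) (ρ i)) ∧ ∀ i, i < n → ρ (i + 1) ≤ ρ i + 1

/-- `H` is an echelon subgroup of the free group `F` of finite rank, by ranks. -/
def IsEchelonRk {F : Type} [Group F] (H : Subgroup F) : Prop :=
  ∃ (n : ℕ) (X : FreeGroupBasis (Fin n) F), InEchelonFormRk X H

theorem hasRank_of_eq {F : Type} [Group F] {H K : Subgroup F} {r : ℕ} (h : H = K)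
    (hH : HasRank H r) : HasRank K r := h ▸ hH

theorem hasRank_bot {F : Type} [Group F] : HasRank (⊥ : Subgroup F) 0 :=
  ⟨FreeGroupBasis.ofRepr (MulEquiv.ofUnique : (⊥ : Subgroup F) ≃* FreeGroup (Fin 0))⟩

theorem hasRank_zpowers (z : F2) (hz : z ≠ 1) : HasRank (Subgroup.zpowers z) 1 := by
  have hinj : Function.Injective (FreeGroup.lift (fun _ : Fin 1 => z)) := by
    rw [injective_iff_map_eq_one]
    intro a ha
    have h1 : a ∈ Subgroup.zpowers (FreeGroup.of (0 : Fin 1)) := by
      have h2 : a ∈ Subgroup.closure (Set.range (FreeGroup.of : Fin 1 → _)) := by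
        rw [FreeGroup.closure_range_of]; trivial
      have h3 : Set.range (FreeGroup.of : Fin 1 → _) = {FreeGroup.of 0} := by
        ext g
        simp [eq_comm]
      rwa [h3, ← Subgroup.zpowers_eq_closure] at h2
    obtain ⟨k, hk⟩ := h1
    have hk' : a = FreeGroup.of 0 ^ k := hk.symm
    rw [hk', MonoidHom.map_zpow, FreeGroup.lift_apply_of] at ha
    rw [hk', (IsMulTorsionFree.zpow_eq_one_iff_right hz).1 ha, zpow_zero]
  refine hasRank_of_eq ?_ ⟨basisRange _ hinj⟩
  rw [FreeGroup.range_lift_eq_closure, Subgroup.zpowers_eq_closure]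
  congr 1
  ext g
  simp [eq_comm]

theorem level_one_eq {F : Type} [Group F] (X : FreeGroupBasis (Fin 2) F) :
    level X 1 = Subgroup.zpowers (X 0) := by
  refine le_antisymm (level_one X (by decide)) ?_
  rw [Subgroup.zpowers_le]
  exact Subgroup.subset_closure ⟨0, by decide, rfl⟩

theorem echelonRk_of {X : FreeGroupBasis (Fin 2) F2} (f : Fin 2 → F2)
    (hf : Function.Injective (FreeGroup.lift f)) (h0 : f 0 = X 0) :
    IsEchelonRk (FreeGroup.lift f).range := by
  refine ⟨2, X, fun i => i, ?_, fun i _ => le_refl _⟩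
  intro i hi
  have hX : X 0 ∈ (FreeGroup.lift f).range := by
    rw [← h0]
    exact ⟨FreeGroup.of 0, FreeGroup.lift_apply_of⟩
  interval_cases i
  · refine hasRank_of_eq ?_ hasRank_bot
    rw [level_zero, inf_bot_eq]
  · refine hasRank_of_eq ?_ (hasRank_zpowers (X 0) ?_)
    · rw [level_one_eq]
      symm
      rw [inf_eq_right, Subgroup.zpowers_le]
      exact hX
    · intro h
      have h2 : FreeGroup.lift f (FreeGroup.of 0) = 1 := by rw [FreeGroup.lift_apply_of, h0, h]
      exact FreeGroup.of_ne_one 0 ((injective_iff_map_eq_one _).1 hf _ h2)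
  · refine hasRank_of_eq ?_ ⟨basisRange f hf⟩
    rw [level_top, inf_top_eq]

/-- The intersection of two echelon subgroups of the free group of rank two need not be echelon
(in both of the equivalent forms of the definition). -/
theorem result : ∃ H G : Subgroup (FreeGroup (Fin 2)),
    (IsEchelon H ∧ IsEchelon G ∧ ¬ IsEchelon (H ⊓ G)) ∧
    (IsEchelonRk H ∧ IsEchelonRk G ∧ ¬ IsEchelonRk (H ⊓ G)) := by
  refine ⟨H1, H2, ⟨echelon1, echelon2, not_echelon⟩, ?_, ?_, ?_⟩
  · refine echelonRk_of (X := FreeGroupBasis.ofFreeGroup (Fin 2)) gen1 inj1 ?_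
    rw [FreeGroupBasis.ofFreeGroup_apply]; rfl
  · refine echelonRk_of (X := (FreeGroupBasis.ofFreeGroup (Fin 2)).reindex (Equiv.swap 0 1))
      gen2 inj2 ?_
    rw [FreeGroupBasis.reindex_apply, FreeGroupBasis.ofFreeGroup_apply]; rfl
  · rintro ⟨n, X, ρ, hρ, hstep⟩
    have hn : n ≤ 2 := card_le_of_gen X (FreeGroup.of : Fin 2 → F2) (FreeGroup.closure_range_of _)
    have hn2 : 2 ≤ n := card_le_of_gen (FreeGroupBasis.ofFreeGroup (Fin 2)) (fun j => X j)
      (closure_range X)
    obtain rfl : n = 2 := le_antisymm hn hn2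
    obtain ⟨b2⟩ := hρ 2 (le_refl _)
    obtain ⟨b1⟩ := hρ 1 (by norm_num)
    have h1 : ρ 1 = 0 := by
      by_contra h
      have hpos : 0 < ρ 1 := Nat.pos_of_ne_zero h
      obtain ⟨m, hm⟩ := level_one X (by decide) (b1 ⟨0, hpos⟩).2.2
      have hm' : X 0 ^ m = ((b1 ⟨0, hpos⟩ : (H1 ⊓ H2 ⊓ level X 1 : Subgroup F2)) : F2) := hm
      refine no_power X 0 m ?_ ?_ ?_
      · rintro rfl
        rw [zpow_zero] at hm'
        have h2 : b1 ⟨0, hpos⟩ = 1 := Subtype.ext hm'.symm
        have h3 := congrArg b1.repr h2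
        rw [FreeGroupBasis.repr_apply_coe, _root_.map_one] at h3
        exact FreeGroup.of_ne_one _ h3
      · rw [hm']
        exact (b1 ⟨0, hpos⟩).2.1.1
      · rw [hm']
        exact (b1 ⟨0, hpos⟩).2.1.2
    have h2 : ρ 2 ≤ 1 := by
      have := hstep 1 (by norm_num)
      rw [h1] at this
      exact this
    have h3 : 2 ≤ ρ 2 := by
      have hL : ∀ g : F2, g ∈ level X 2 := fun g => by rw [level_top]; trivial
      refine two_le_of_noncomm b2 ⟨_, ⟨u_mem, hL _⟩⟩ ⟨_, ⟨v_mem, hL _⟩⟩ ?_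
      intro h
      exact uv_ne (congrArg Subtype.val h)
    omega

end Pool.Agent.Results.MP_339e71_al.IntersectionNotEchelon
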